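import Pool.Agent.H14.AVS.S4
import Pool.Agent.H49.AVR.GRP

/-!
# AVS, module GRE: the orders of the groups
-/

set_option autoImplicit false

namespace Pool.AVS

open Polynomial Matrix Pool.AVR

namespace GRE

variable {F : Type} [Field F]

theorem rel {R : Type} [CommRing R] {g : Matrix (Fin 3) (Fin 3) R}
    (h : gᵀ * AA R * g = AA R) (i j : Fin 3) :
    g 0 i * g 2 j + g 1 i * g 1 j + g 2 i * g 0 j = AA R i j := by
  have h1 := congrFun (congrFun h i) j
  simp [AA, Matrix.mul_apply, Fin.sum_univ_three] at h1 ⊢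
  linear_combination h1

theorem AA_sq (R : Type) [CommRing R] : AA R * AA R = 1 := by
  ext i j : 1
  fin_cases i <;> fin_cases j <;> simp [AA, Matrix.mul_apply, Fin.sum_univ_three]

theorem inv_left {R : Type} [CommRing R] {g : Matrix (Fin 3) (Fin 3) R}
    (h : gᵀ * AA R * g = AA R) : AA R * gᵀ * AA R * g = 1 := by
  have : AA R * gᵀ * AA R * g = AA R * (gᵀ * AA R * g) := by
    simp only [Matrix.mul_assoc]
  rw [this, h, AA_sq]

theorem inv_right {R : Type} [CommRing R] {g : Matrix (Fin 3) (Fin 3) R}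
    (h : gᵀ * AA R * g = AA R) : g * (AA R * gᵀ * AA R) = 1 :=
  mul_eq_one_comm.mp (inv_left h)

theorem iso_tr {R : Type} [CommRing R] {g : Matrix (Fin 3) (Fin 3) R}
    (h : gᵀ * AA R * g = AA R) : (gᵀ)ᵀ * AA R * gᵀ = AA R := by
  have h1 := inv_right h
  have h2 : g * (AA R * gᵀ * AA R) * AA R = 1 * AA R := by rw [h1]
  rw [Matrix.transpose_transpose]
  calc g * AA R * gᵀ = g * (AA R * gᵀ * (AA R * AA R)) := by
        rw [AA_sq, Matrix.mul_one, Matrix.mul_assoc]
    _ = g * (AA R * gᵀ * AA R) * AA R := by simp only [Matrix.mul_assoc]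
    _ = AA R := by rw [h2, Matrix.one_mul]

theorem adj {R : Type} [CommRing R] {g : Matrix (Fin 3) (Fin 3) R}
    (h : gᵀ * AA R * g = AA R) (hd : g.det = 1) : g.adjugate = AA R * gᵀ * AA R := by
  have h1 : g.adjugate * g = 1 := by rw [Matrix.adjugate_mul, hd, one_smul]
  calc g.adjugate = g.adjugate * (g * (AA R * gᵀ * AA R)) := by
        rw [inv_right h, Matrix.mul_one]
    _ = (g.adjugate * g) * (AA R * gᵀ * AA R) := (Matrix.mul_assoc _ _ _).symm
    _ = AA R * gᵀ * AA R := by rw [h1, Matrix.one_mul]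

theorem ent {R : Type} [CommRing R] (g : Matrix (Fin 3) (Fin 3) R) (i j : Fin 3) :
    (AA R * gᵀ * AA R) i j = g (Fin.rev j) (Fin.rev i) := by
  rw [Matrix.mul_apply, Fin.sum_univ_three]
  simp only [Matrix.mul_apply, Fin.sum_univ_three, Matrix.transpose_apply]
  fin_cases i <;> fin_cases j <;> simp [AA]

/-- upper triangular elements are in the Borel subgroup -/
theorem upper (h2 : (2 : F) ≠ 0) {g : Matrix (Fin 3) (Fin 3) F[X]}
    (h : gᵀ * AA F[X] * g = AA F[X]) (hd : g.det = 1) (h10 : g 1 0 = 0) (h20 : g 2 0 = 0)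
    (h21 : g 2 1 = 0) {l : F} (hl : g 0 0 = C l) : l ≠ 0 ∧ g = GRP.bor l (-(g 1 2)) := by
  have r02 := rel h 0 2
  have r12 := rel h 1 2
  have r22 := rel h 2 2
  rw [Matrix.det_fin_three] at hd
  simp [AA, h10, h20, h21, hl] at r02 r12 r22 hd
  have hl0 : l ≠ 0 := by
    rintro rfl
    simp at r02
  have hC := GRP.Clmul hl0
  have e22 : g 2 2 = C l⁻¹ := by linear_combination (C l⁻¹) * r02 - g 2 2 * hC
  have e11 : g 1 1 = 1 := by linear_combination hd - g 1 1 * r02
  rw [e22, e11] at r12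
  rw [e22] at r22
  have e2 : (C (l / 2) : F[X]) * C l⁻¹ * 2 = 1 := by
    have : (2 : F[X]) = C (2 : F) := by
      rw [map_ofNat]
    rw [this, ← C_mul, ← C_mul]
    have h3 : l / 2 * l⁻¹ * 2 = 1 := by
      field_simp
    rw [h3, C_1]
  refine ⟨hl0, ?_⟩
  ext i j : 1
  fin_cases i <;> fin_cases j
  · simp [GRP.bor, hl]
  · simp [GRP.bor]
    linear_combination (C l) * r12 - g 0 1 * hC
  · simp [GRP.bor]
    linear_combination (C (l / 2)) * r22 - g 0 2 * e2
  · simp [GRP.bor, h10]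
  · simp [GRP.bor, e11]
  · simp [GRP.bor]
  · simp [GRP.bor, h20]
  · simp [GRP.bor, h21]
  · simp [GRP.bor, e22]

/-- the big cell -/
theorem big (h2 : (2 : F) ≠ 0) {G : Matrix (Fin 3) (Fin 3) F}
    (h : Gᵀ * AA F * G = AA F) (hd : G.det = 1) (h20 : G 2 0 ≠ 0) :
    G = GRP.cel (G 2 0)⁻¹ (-(G 1 0)) (G 2 1 / G 2 0) := by
  have h4 : (4 : F) ≠ 0 := by
    have : (4 : F) = 2 * 2 := by norm_num
    rw [this]
    exact mul_ne_zero h2 h2
  have r00 := rel h 0 0
  have r02 := rel h 0 2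
  have t22 := rel (iso_tr h) 2 2
  have ha := adj h hd
  have a20 := congrFun (congrFun ha 2) 0
  have a10 := congrFun (congrFun ha 1) 0
  have a21 := congrFun (congrFun ha 2) 1
  rw [Matrix.adjugate_fin_three, ent] at a20 a10 a21
  simp [AA] at r00 r02 t22
  have v0 : Fin.rev (0 : Fin 3) = 2 := rfl
  have v1 : Fin.rev (1 : Fin 3) = 1 := rfl
  have v2 : Fin.rev (2 : Fin 3) = 0 := rfl
  simp [v0, v1, v2] at a20 a10 a21
  have e00 : G 0 0 = -(G 1 0 ^ 2 / (2 * G 2 0)) := by
    field_simp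
    linear_combination r00
  have e22 : G 2 2 = -(G 2 1 ^ 2 / (2 * G 2 0)) := by
    field_simp
    linear_combination t22
  have e11 : G 1 1 = G 1 0 * G 2 1 / G 2 0 - 1 := by
    field_simp
    linear_combination -a20
  have e12 : G 1 2 = G 2 1 / G 2 0 - G 1 0 * G 2 1 ^ 2 / (2 * G 2 0 ^ 2) := by
    have h1 : G 1 2 * G 2 0 = G 2 1 + G 1 0 * G 2 2 := by linear_combination a10
    rw [e22] at h1
    field_simp at h1 ⊢
    linear_combination h1
  have e01 : G 0 1 = G 1 0 / G 2 0 - G 1 0 ^ 2 * G 2 1 / (2 * G 2 0 ^ 2) := by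
    have h1 : G 0 1 * G 2 0 = G 1 0 + G 0 0 * G 2 1 := by linear_combination a21
    rw [e00] at h1
    field_simp at h1 ⊢
    linear_combination h1
  have e02 : G 0 2 = 1 / G 2 0 - G 1 0 * G 2 1 / G 2 0 ^ 2 +
      G 1 0 ^ 2 * G 2 1 ^ 2 / (4 * G 2 0 ^ 3) := by
    have h1 : G 2 0 * G 0 2 = 1 - G 0 0 * G 2 2 - G 1 0 * G 1 2 := by linear_combination r02
    rw [e00, e22, e12] at h1
    have h3 : G 0 2 = (1 - -(G 1 0 ^ 2 / (2 * G 2 0)) * -(G 2 1 ^ 2 / (2 * G 2 0)) -
        G 1 0 * (G 2 1 / G 2 0 - G 1 0 * G 2 1 ^ 2 / (2 * G 2 0 ^ 2))) / G 2 0 := by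
      rw [← h1]
      field_simp
    rw [h3]
    field_simp
    ring
  ext i j : 1
  fin_cases i <;> fin_cases j
  · simp [GRP.cel, e00]
    field_simp
  · simp [GRP.cel, e01]
    field_simp
    ring
  · simp [GRP.cel, e02]
    field_simp
    ring
  · simp [GRP.cel]
  · simp [GRP.cel, e11]
    field_simp
    ring
  · simp [GRP.cel, e12]
    field_simp
    ring
  · simp [GRP.cel]
  · simp [GRP.cel]
    field_simp
  · simp [GRP.cel, e22]
    field_simp

/-- the elements of degree zero are constant -/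
theorem const {g : Matrix (Fin 3) (Fin 3) F[X]} (hg : g ∈ GG F 0) :
    g = (g.map (constantCoeff : F[X] →+* F)).map (C : F →+* F[X]) := by
  obtain ⟨_, _, h3⟩ := hg
  ext i j : 1
  rw [Matrix.map_apply, Matrix.map_apply]
  by_cases h0 : g i j = 0
  · rw [h0, map_zero, map_zero]
  · have h1 := h3 i j h0
    have h4 : dd 0 j - dd 0 i = 0 := by
      fin_cases i <;> fin_cases j <;> simp [dd]
    rw [h4] at h1
    have h5 : (g i j).natDegree = 0 := by omega
    rw [constantCoeff_apply]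
    exact (eq_C_of_natDegree_eq_zero h5)

theorem surj0 (h2 : (2 : F) ≠ 0) {g : Matrix (Fin 3) (Fin 3) F[X]} (hg : g ∈ GG F 0) :
    (∃ l s : F, l ≠ 0 ∧ g = GRP.bor l (C s)) ∨ ∃ l s r : F, l ≠ 0 ∧ g = GRP.cell l s r := by
  have hc := const hg
  obtain ⟨h1, h3, _⟩ := hg
  set G := g.map (constantCoeff : F[X] →+* F) with hG
  have hiso : Gᵀ * AA F * G = AA F := by
    have h5 := congrArg (fun M : Matrix (Fin 3) (Fin 3) F[X] =>
      M.map (constantCoeff : F[X] →+* F)) h1
    simp only [Matrix.map_mul, Matrix.transpose_map] at h5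
    have h6 : (AA F[X]).map (constantCoeff : F[X] →+* F) = AA F := by
      ext i j : 1
      fin_cases i <;> fin_cases j <;> simp [AA]
    rw [h6] at h5
    exact h5
  have hdet : G.det = 1 := by
    have h5 := (constantCoeff : F[X] →+* F).map_det g
    rw [h3, map_one] at h5
    exact h5.symm
  by_cases h20 : G 2 0 = 0
  · left
    have r00 := rel hiso 0 0
    have r01 := rel hiso 0 1
    have r02 := rel hiso 0 2
    simp [AA, h20] at r00 r01 r02
    rw [r00] at r01 r02
    simp at r01 r02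
    have h00 : G 0 0 ≠ 0 := by
      intro h
      rw [h] at r02
      simp at r02
    have h21 : G 2 1 = 0 := by
      rcases r01 with h | h
      · exact absurd h h00
      · exact h
    have e (i j : Fin 3) : g i j = C (G i j) := by
      have := congrFun (congrFun hc i) j
      rw [Matrix.map_apply] at this
      exact this
    obtain ⟨hl, hb⟩ := upper h2 h1 h3 (by rw [e, r00, C_0]) (by rw [e, h20, C_0])
      (by rw [e, h21, C_0]) (e 0 0)
    refine ⟨G 0 0, -(G 1 2), hl, ?_⟩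
    rw [C_neg, ← e 1 2]
    exact hb
  · right
    refine ⟨(G 2 0)⁻¹, -(G 1 0), G 2 1 / G 2 0, inv_ne_zero h20, ?_⟩
    exact hc.trans (congrArg (fun M : Matrix (Fin 3) (Fin 3) F => M.map (C : F →+* F[X]))
      (big h2 hiso hdet h20))

theorem surjm (h2 : (2 : F) ≠ 0) {m : ℕ} (hm : 1 ≤ m) {g : Matrix (Fin 3) (Fin 3) F[X]}
    (hg : g ∈ GG F m) : ∃ (l : F) (s : F[X]), l ≠ 0 ∧ s.natDegree ≤ m ∧ g = GRP.bor l s := by
  obtain ⟨h1, h3, h4⟩ := hg
  have z (i j : Fin 3) (h : dd m j - dd m i < 0) : g i j = 0 := by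
    by_contra h0
    have := h4 i j h0
    omega
  have h10 : g 1 0 = 0 := z 1 0 (by simp [dd]; omega)
  have h20 : g 2 0 = 0 := z 2 0 (by simp [dd]; omega)
  have h21 : g 2 1 = 0 := z 2 1 (by simp [dd]; omega)
  have h00 : g 0 0 = C ((g 0 0).coeff 0) := by
    by_cases h0 : g 0 0 = 0
    · rw [h0]; simp
    · have h5 := h4 0 0 h0
      have h6 : (g 0 0).natDegree = 0 := by
        rw [sub_self] at h5
        omega
      exact eq_C_of_natDegree_eq_zero h6
  obtain ⟨hl, hb⟩ := upper h2 h1 h3 h10 h20 h21 h00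
  refine ⟨_, _, hl, ?_, hb⟩
  rw [natDegree_neg]
  by_cases h0 : g 1 2 = 0
  · rw [h0]; simp
  · have h5 := h4 1 2 h0
    simp [dd] at h5
    exact h5

end GRE

open GRE in
theorem gre_thm : GREStmt := by
  intro F _ _ h2
  have hu : Nat.card Fˣ = Nat.card F - 1 := Nat.card_units F
  obtain ⟨g1, g2, g3⟩ := grp_thm F h2
  refine ⟨g1, le_antisymm ?_ g2, fun m hm => le_antisymm ?_ (g3 m hm)⟩
  · have : Finite (GG F 0) := g1 0
    let Φ : (Fˣ × F) ⊕ (Fˣ × F × F) → GG F 0 := fun z => match z with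
      | Sum.inl (l, s) =>
        ⟨GRP.bor (l : F) (C s), GRP.bor_mem h2 l.ne_zero (C s) 0 (by simp)⟩
      | Sum.inr (l, s, r) => ⟨GRP.cell (l : F) s r, GRP.cell_mem h2 l.ne_zero s r⟩
    have hsurj : Function.Surjective Φ := by
      rintro ⟨g, hg⟩
      rcases surj0 h2 hg with ⟨l, s, hl, h⟩ | ⟨l, s, r, hl, h⟩
      · exact ⟨Sum.inl (Units.mk0 l hl, s), Subtype.ext h.symm⟩
      · exact ⟨Sum.inr (Units.mk0 l hl, s, r), Subtype.ext h.symm⟩
    have hc := Nat.card_le_card_of_surjective Φ hsurj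
    rw [Nat.card_coe_set_eq, Nat.card_sum, Nat.card_prod, Nat.card_prod, Nat.card_prod, hu] at hc
    refine hc.trans ?_
    have hq : 1 ≤ Nat.card F := Nat.card_pos
    obtain ⟨q, hq'⟩ := Nat.exists_eq_add_of_le hq
    rw [hq']
    have : (1 + q - 1) * (1 + q) + (1 + q - 1) * ((1 + q) * (1 + q)) ≤ (1 + q) ^ 3 - (1 + q) := by
      rw [Nat.add_sub_cancel_left]
      apply Nat.le_sub_of_add_le
      apply le_of_eq
      ring
    exact this
  · have : Finite (GG F m) := g1 m
    let Φ : Fˣ × degreeLT F (m + 1) → GG F m := fun z =>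
      ⟨GRP.bor (z.1 : F) z.2.1, GRP.bor_mem h2 z.1.ne_zero z.2.1 m (by
        have h3 := mem_degreeLT.mp z.2.2
        by_cases h0 : z.2.1 = 0
        · rw [h0]; simp
        · rw [degree_eq_natDegree h0] at h3
          have : z.2.1.natDegree < m + 1 := by exact_mod_cast h3
          omega)⟩
    have hsurj : Function.Surjective Φ := by
      rintro ⟨g, hg⟩
      obtain ⟨l, s, hl, hs, h⟩ := surjm h2 hm hg
      refine ⟨(Units.mk0 l hl, ⟨s, ?_⟩), Subtype.ext h.symm⟩
      rw [mem_degreeLT]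
      by_cases h0 : s = 0
      · rw [h0]
        simp
      · rw [degree_eq_natDegree h0]
        exact_mod_cast Nat.lt_succ_of_le hs
    have : Finite (degreeLT F (m + 1)) := Finite.of_equiv _ (degreeLTEquiv F (m + 1)).symm.toEquiv
    have hc := Nat.card_le_card_of_surjective Φ hsurj
    rw [Nat.card_coe_set_eq, Nat.card_prod, hu, GRP.card_deg] at hc
    exact hc

end Pool.AVS
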